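import Mathlib
import Pool.Agent.Helper317.Atr.Defs
import Pool.Agent.Helper317.Atr.Final
import Pool.Agent.Helper317.Atr.Sanity

/-!
# `ATR₀` proves `EXT(η)`

In every model of `ATR₀` (Henkin semantics, nonstandard models included, no additional
induction), every countable scattered partial order has a scattered linearization. By the
completeness theorem, `ATR₀ ⊢ EXT(η)`.

The proof: let `T` be the tree of finite partial embeddings of the rationals (in a fixed
enumeration) into the scattered partial order `P`. `T` has no path, so its Kleene-Brouwer order is
a well-ordering. By one arithmetical transfinite recursion along this order one attaches to every
node `σ` a linearization of one of the intervals of `P` determined by `σ`: if some child of `σ`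
gives a linearization of an interval of `σ`, it is taken over from the first such child;
otherwise each element `z` of the interval `I` of the next rational has a linearization of the
part of `I` below `z` or of the part of `I` above `z`, and a sum of order type `ω + ω*` of such
pieces is a linearization of `I`. That the linearizations are scattered is proved by taking the
least node for which the rationals embed into its linearization; this is an arithmetical
statement about the given embedding, so no `Σ¹₁` induction is needed.

The first part of the result shows that the definition of models of `ATR₀` is not vacuous.
-/

namespace Pool.Agent.Results.MP_4ee3e3_lc.ExtEtaInATR0

open Pool.Agent.Helper617.RM Pool.Agent.Helper317.Atr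

theorem result :
    IsModelATR0 fullModel ∧ ∀ N : L2Structure.{0}, IsModelATR0 N → ExtEta N :=
  ⟨fullModel_atr, fun N h => ext_eta N h⟩

end Pool.Agent.Results.MP_4ee3e3_lc.ExtEtaInATR0
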